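import Pool.Agent.U36.SD.Stm

/-!
Project SD, package C1: the proportion of `CO`.
-/

set_option autoImplicit false
set_option linter.unusedSectionVars false

open NumberField Polynomial IsDedekindDomain Pool.Agent.W401.Cheb

namespace Pool.Agent.U36.SD

open Pool.Agent.TH954 Pool.Agent.U36.BA Pool.Agent.U36.DN

namespace C1

section

variable {K : Type} [Field K] [NumberField K]

/-- an automorphism which fixes the `ℓ`-th roots of unity for all `ℓ ∈ A` fixes the `∏ ℓ`-th -/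
lemma fix_prod {A : Finset ℕ} (hA : ∀ ℓ ∈ A, ℓ.Prime) (g : GK K)
    (hg : ∀ ℓ ∈ A, ∀ ζ : AlgebraicClosure K, ζ ^ ℓ = 1 → g ζ = ζ) :
    ∀ w : AlgebraicClosure K, w ^ (∏ ℓ ∈ A, ℓ) = 1 → g w = w := by
  classical
  have h3 : ∀ B : Finset ℕ, B ⊆ A → ∀ w : AlgebraicClosure K, w ^ (∏ ℓ ∈ B, ℓ) = 1 →
      g w = w := by
    intro B
    induction B using Finset.induction_on with
    | empty =>
      intro _ w hw
      rw [Finset.prod_empty, pow_one] at hw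
      rw [hw, map_one]
    | insert q B hqB ih =>
      intro hsub w hw
      have hqA := hsub (Finset.mem_insert_self q B)
      have hcop : Nat.Coprime q (∏ ℓ ∈ B, ℓ) := by
        rw [Nat.coprime_prod_right_iff]
        intro ℓ hℓ
        rw [Nat.coprime_primes (hA q hqA) (hA ℓ (hsub (Finset.mem_insert_of_mem hℓ)))]
        rintro rfl
        exact hqB hℓ
      rw [Finset.prod_insert hqB] at hw
      have e1 : g (w ^ q) = w ^ q := by
        apply ih fun x hx => hsub (Finset.mem_insert_of_mem hx)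
        rw [← pow_mul]
        exact hw
      have e2 : g (w ^ (∏ ℓ ∈ B, ℓ)) = w ^ (∏ ℓ ∈ B, ℓ) := by
        apply hg q hqA
        rw [← pow_mul, mul_comm, hw]
      have hw0 : w ≠ 0 := by
        intro h0
        rw [h0, zero_pow] at hw
        · exact zero_ne_one hw
        · exact (Nat.mul_pos (hA q hqA).pos (Finset.prod_pos fun ℓ hℓ =>
            (hA ℓ (hsub (Finset.mem_insert_of_mem hℓ))).pos)).ne'
      have hb := Nat.gcd_eq_gcd_ab q (∏ ℓ ∈ B, ℓ)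
      rw [hcop.gcd_eq_one] at hb
      have e3 : w = (w ^ q) ^ (Nat.gcdA q (∏ ℓ ∈ B, ℓ)) * (w ^ (∏ ℓ ∈ B, ℓ)) ^ (Nat.gcdB q (∏ ℓ ∈ B, ℓ)) := by
        rw [← zpow_natCast w q, ← zpow_natCast w (∏ ℓ ∈ B, ℓ), ← zpow_mul, ← zpow_mul, ← zpow_add₀ hw0,
          ← hb, Nat.cast_one, zpow_one]
      conv_lhs => rw [e3]
      rw [map_mul, map_zpow₀, map_zpow₀, e1, e2, ← e3]
  exact h3 A (Finset.Subset.refl A)

/-- the exponents -/
lemma exp {ℓ : ℕ} (hℓ : ℓ.Prime) {z : AlgebraicClosure K} (hz : IsPrimitiveRoot z ℓ) (g : GK K) :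
    ∃ a ∈ Finset.Ico 1 ℓ, g z = z ^ a := by
  have : NeZero ℓ := ⟨hℓ.ne_zero⟩
  obtain ⟨a, ha, h⟩ := hz.eq_pow_of_pow_eq_one (ξ := g z) (by rw [← map_pow, hz.pow_eq_one, map_one])
  refine ⟨a, Finset.mem_Ico.2 ⟨?_, ha⟩, h.symm⟩
  by_contra h0
  have ha0 : a = 0 := by omega
  rw [ha0, pow_zero] at h
  have h1 : z = 1 := by
    apply g.injective
    rw [← h, map_one]
  rw [h1] at hz
  exact hℓ.one_lt.ne' (hz.unique IsPrimitiveRoot.one)

/-- reducing the exponent -/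
lemma good_mod {N : IntermediateField K (AlgebraicClosure K)} [Normal K N] {ℓ h a : ℕ}
    {c : AlgebraicClosure K} (hc : c ∈ N) (σ : GK K)
    (hg : ∀ x ∈ N, x ^ ℓ ≠ ∏ i ∈ Finset.range h, (σ ^ i) c ^ (a ^ (h - i))) :
    ∀ x ∈ N, x ^ ℓ ≠ ∏ i ∈ Finset.range h, (σ ^ i) c ^ ((a % ℓ) ^ (h - i)) := by
  intro x hx hxe
  have hm : ∀ k : ℕ, ∃ m : ℕ, a ^ k = (a % ℓ) ^ k + ℓ * m := by
    intro k
    have h1 : (a % ℓ) ^ k ≡ a ^ k [MOD ℓ] := (Nat.mod_modEq a ℓ).pow k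
    have h2 : (a % ℓ) ^ k ≤ a ^ k := Nat.pow_le_pow_left (Nat.mod_le a ℓ) k
    obtain ⟨m, hm⟩ := (Nat.modEq_iff_dvd' h2).1 h1
    exact ⟨m, by omega⟩
  choose m hm using hm
  have hσ : ∀ i, (σ ^ i) c ∈ N := by
    intro i
    have h1 := AlgEquiv.restrictNormal_commutes (σ ^ i) N ⟨c, hc⟩
    have h2 : (algebraMap N (AlgebraicClosure K)) ((AlgEquiv.restrictNormal (σ ^ i) N) ⟨c, hc⟩) =
      (((AlgEquiv.restrictNormal (σ ^ i) N) ⟨c, hc⟩ : N) : AlgebraicClosure K) := rfl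
    have h3 : (σ ^ i) c = (((AlgEquiv.restrictNormal (σ ^ i) N) ⟨c, hc⟩ : N) : AlgebraicClosure K) :=
      (h2.symm.trans h1).symm
    rw [h3]
    exact Subtype.property _
  apply hg (x * ∏ i ∈ Finset.range h, (σ ^ i) c ^ (m (h - i)))
  · exact mul_mem hx (prod_mem fun i _ => pow_mem (hσ i) _)
  · rw [mul_pow, hxe, ← Finset.prod_pow, ← Finset.prod_mul_distrib]
    refine Finset.prod_congr rfl fun i _ => ?_
    rw [← pow_mul, ← pow_add, hm (h - i), mul_comm ℓ]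

/-- the weight of the exponent `a` at `ℓ` -/
noncomputable def w (N : IntermediateField K (AlgebraicClosure K)) (c : ℕ → AlgebraicClosure K)
    (h : ℕ) (σ : GK K) (ℓ a : ℕ) : ℝ := by
  classical
  exact if a ^ h ≡ 1 [MOD ℓ] ∧ ∀ x ∈ N, x ^ ℓ ≠ ∏ i ∈ Finset.range h, (σ ^ i) (c ℓ) ^ (a ^ (h - i))
    then (ℓ : ℝ)⁻¹ else 1

lemma w_le {N : IntermediateField K (AlgebraicClosure K)} {c : ℕ → AlgebraicClosure K}
    {h : ℕ} {σ : GK K} {ℓ a : ℕ} (hℓ : 0 < ℓ) : w N c h σ ℓ a ≤ 1 := by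
  unfold w
  split_ifs
  · exact inv_le_one_of_one_le₀ (by exact_mod_cast hℓ)
  · exact le_refl _

lemma w_nonneg {N : IntermediateField K (AlgebraicClosure K)} {c : ℕ → AlgebraicClosure K}
    {h : ℕ} {σ : GK K} {ℓ a : ℕ} : 0 ≤ w N c h σ ℓ a := by
  unfold w
  split_ifs
  · positivity
  · exact zero_le_one

/-- the sum of the weights -/
lemma sum_w (hGE : S_GE) (N : IntermediateField K (AlgebraicClosure K)) [FiniteDimensional K N]
    [Normal K N] {h : ℕ} (hh : 0 < h) {ℓ : ℕ} (hℓ : ℓ.Prime) (hdvd : h ∣ ℓ - 1)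
    {c : ℕ → AlgebraicClosure K} (hc : c ℓ ∈ N) (hc' : ∀ x ∈ N, x ^ ℓ ≠ c ℓ) (σ : GK K) :
    ∑ a ∈ Finset.Ico 1 ℓ, w N c h σ ℓ a ≤ ((ℓ : ℝ) - 1) ^ 2 / ℓ := by
  classical
  obtain ⟨a, ha, hah, hag⟩ := hGE K N h hh ℓ hℓ hdvd (c ℓ) hc hc' σ
  have hmem : a % ℓ ∈ Finset.Ico 1 ℓ := by
    rw [Finset.mem_Ico]
    refine ⟨?_, Nat.mod_lt _ hℓ.pos⟩
    rw [Nat.one_le_iff_ne_zero]
    exact fun h0 => ha (Nat.dvd_of_mod_eq_zero h0)
  have hw : w N c h σ ℓ (a % ℓ) = (ℓ : ℝ)⁻¹ := by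
    unfold w
    rw [if_pos ⟨((Nat.mod_modEq a ℓ).pow h).trans hah, good_mod hc σ hag⟩]
  rw [← Finset.add_sum_erase _ _ hmem, hw]
  have h1 : ∑ x ∈ (Finset.Ico 1 ℓ).erase (a % ℓ), w N c h σ ℓ x ≤ ((ℓ : ℝ) - 2) := by
    refine (Finset.sum_le_sum fun x _ => w_le (a := x) hℓ.pos).trans ?_
    rw [Finset.sum_const, Finset.card_erase_of_mem hmem, Nat.card_Ico, nsmul_eq_mul, mul_one]
    have : 2 ≤ ℓ := hℓ.two_le
    rw [Nat.sub_sub, Nat.cast_sub this]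
    norm_num
  have hℓ0 : (0 : ℝ) < ℓ := by exact_mod_cast hℓ.pos
  have h2 : ((ℓ : ℝ) - 1) ^ 2 / ℓ = (ℓ : ℝ)⁻¹ + ((ℓ : ℝ) - 2) := by
    field_simp
    ring
  rw [h2]
  linarith

/-- the upper bound -/
theorem upper (hGE : S_GE) (hFIB : S_FIB) (hOP : S_OP)
    (N : IntermediateField K (AlgebraicClosure K))
    [FiniteDimensional K N] [Normal K N] (A : Finset ℕ) (hA : ∀ ℓ ∈ A, ℓ.Prime)
    (hd : ∀ ℓ ∈ A, Module.finrank ℚ K * Module.finrank K N + 1 < ℓ) (h : ℕ)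
    (hh : h = Module.finrank K N) (hdvd : ∀ ℓ ∈ A, h ∣ ℓ - 1)
    (c : ℕ → AlgebraicClosure K) (hc : ∀ ℓ ∈ A, c ℓ ∈ N ∧ ∀ x ∈ N, x ^ ℓ ≠ c ℓ) :
    (((QuotientGroup.mk : GK K → GK K ⧸ US N A c) '' CO A c h).ncard : ℝ) ≤
      (((QuotientGroup.mk : GK K → GK K ⧸ US N A c) ''
        (HZ N (∏ ℓ ∈ A, ℓ) : Set (GK K))).ncard : ℝ) * (h * ∏ ℓ ∈ A, (((ℓ : ℝ) - 1) ^ 2 / ℓ)) := by
  classical
  obtain ⟨-, hopen, -⟩ := hOP K N A (fun ℓ hℓ => (hA ℓ hℓ).pos) c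
  have hfin : Finite (GK K ⧸ US N A c) := Subgroup.quotient_finite_of_isOpen _ hopen
  have hh0 : 0 < h := by
    rw [hh]
    exact Module.finrank_pos
  set M : ℝ := (((QuotientGroup.mk : GK K → GK K ⧸ US N A c) ''
        (HZ N (∏ ℓ ∈ A, ℓ) : Set (GK K))).ncard : ℝ) with hM
  -- primitive roots
  have hz : ∀ ℓ : A, ∃ z : AlgebraicClosure K, IsPrimitiveRoot z ℓ.1 := by
    intro ℓ
    have hn0 : NeZero ℓ.1 := ⟨(hA _ ℓ.2).ne_zero⟩
    have hn1 : NeZero ((ℓ.1 : ℕ) : AlgebraicClosure K) := ⟨Nat.cast_ne_zero.2 (hA _ ℓ.2).ne_zero⟩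
    exact HasEnoughRootsOfUnity.exists_primitiveRoot (AlgebraicClosure K) ℓ.1
  choose ζ hζ using hz
  have hex : ∀ (g : GK K) (ℓ : A), ∃ a ∈ Finset.Ico 1 ℓ.1, g (ζ ℓ) = ζ ℓ ^ a := fun g ℓ =>
    exp (hA _ ℓ.2) (hζ ℓ) g
  choose e he he' using hex
  -- the label
  set lab : GK K → (N ≃ₐ[K] N) × (A → ℕ) := fun g => (AlgEquiv.restrictNormalHom N g, e g) with hlab
  have hsec : ∀ ν : (N ≃ₐ[K] N), ∃ σ : GK K, AlgEquiv.restrictNormalHom N σ = ν :=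
    AlgEquiv.restrictNormalHom_surjective (AlgebraicClosure K)
  choose s hs using hsec
  have hres : ∀ g g' : GK K, AlgEquiv.restrictNormalHom N g = AlgEquiv.restrictNormalHom N g' →
      ∀ x ∈ N, g x = g' x := by
    intro g g' hgg x hx
    have h1 := AlgEquiv.restrictNormal_commutes g N ⟨x, hx⟩
    have h2 := AlgEquiv.restrictNormal_commutes g' N ⟨x, hx⟩
    have h3 : AlgEquiv.restrictNormal g N = AlgEquiv.restrictNormal g' N := hgg
    rw [h3] at h1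
    exact h1.symm.trans h2
  have hres' : ∀ (g g' : GK K), AlgEquiv.restrictNormalHom N g = AlgEquiv.restrictNormalHom N g' →
      ∀ (i : ℕ), ∀ x ∈ N, (g ^ i) x = (g' ^ i) x := by
    intro g g' hgg i
    apply hres
    rw [map_pow, map_pow, hgg]
  set T : Finset ((N ≃ₐ[K] N) × (A → ℕ)) :=
    Finset.univ ×ˢ Fintype.piFinset (fun ℓ : A => Finset.Ico 1 ℓ.1) with hT
  have hcover : ((QuotientGroup.mk : GK K → GK K ⧸ US N A c) '' CO A c h) ⊆
      ⋃ t ∈ T, (QuotientGroup.mk : GK K → GK K ⧸ US N A c) '' {g | g ∈ CO A c h ∧ lab g = t} := by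
    rintro q ⟨g, hg, rfl⟩
    refine Set.mem_biUnion (x := lab g) ?_ ⟨g, ⟨hg, rfl⟩, rfl⟩
    rw [hT]
    exact Finset.mem_product.2 ⟨Finset.mem_univ _, Fintype.mem_piFinset.2 fun ℓ => he g ℓ⟩
  have hcard : ((QuotientGroup.mk : GK K → GK K ⧸ US N A c) '' CO A c h).ncard ≤
      ∑ t ∈ T, ((QuotientGroup.mk : GK K → GK K ⧸ US N A c) ''
        {g | g ∈ CO A c h ∧ lab g = t}).ncard :=
    (Set.ncard_le_ncard hcover (Set.toFinite _)).trans (Finset.set_ncard_biUnion_le _ _)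
  -- the bound of one label
  have hone : ∀ t ∈ T, (((QuotientGroup.mk : GK K → GK K ⧸ US N A c) ''
        {g | g ∈ CO A c h ∧ lab g = t}).ncard : ℝ) ≤ M * ∏ ℓ : A, w N c h (s t.1) ℓ.1 (t.2 ℓ) := by
    intro t _
    by_cases hne : ∃ σ : GK K, lab σ = t
    · obtain ⟨σ, hσ⟩ := hne
      have hσ1 : AlgEquiv.restrictNormalHom N σ = t.1 := congrArg Prod.fst hσ
      have hσ2 : e σ = t.2 := congrArg Prod.snd hσ
      set A' : Finset ℕ := (Finset.univ.filter (fun ℓ : A => (t.2 ℓ) ^ h ≡ 1 [MOD ℓ.1] ∧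
        ∀ x ∈ N, x ^ ℓ.1 ≠ ∏ i ∈ Finset.range h, ((s t.1) ^ i) (c ℓ.1) ^ ((t.2 ℓ) ^ (h - i)))).map
          (Function.Embedding.subtype _) with hA'
      have hsub : A' ⊆ A := by
        intro ℓ hℓ
        rw [hA', Finset.mem_map] at hℓ
        obtain ⟨x, -, rfl⟩ := hℓ
        exact x.2
      have hgood : ∀ ℓ ∈ A', Good N c h σ ℓ := by
        intro ℓ hℓ
        rw [hA', Finset.mem_map] at hℓ
        obtain ⟨x, hx, rfl⟩ := hℓ
        obtain ⟨-, hx1, hx2⟩ := Finset.mem_filter.1 hx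
        refine ⟨t.2 x, ?_, hx1, ?_⟩
        · intro y hy
          have : NeZero x.1 := ⟨(hA _ x.2).ne_zero⟩
          obtain ⟨i, -, rfl⟩ := (hζ x).eq_pow_of_pow_eq_one hy
          rw [map_pow, he' σ x, hσ2, ← pow_mul, ← pow_mul, mul_comm]
        · intro y hy
          have := hx2 y hy
          change y ^ x.1 ≠ ∏ i ∈ Finset.range h, (σ ^ i) (c x.1) ^ ((t.2 x) ^ (h - i))
          rw [Finset.prod_congr rfl fun i _ => by
            rw [hres' σ (s t.1) (hσ1.trans (hs t.1).symm) i (c x.1) (hc x.1 x.2).1]]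
          exact this
      have hF := hFIB K N A hA hd c hc h σ A' hsub hgood
      have hsubset : ((QuotientGroup.mk : GK K → GK K ⧸ US N A c) ''
          {g | g ∈ CO A c h ∧ lab g = t}) ⊆ ((QuotientGroup.mk : GK K → GK K ⧸ US N A c) ''
          {g | g ∈ CO A c h ∧ σ⁻¹ * g ∈ HZ N (∏ ℓ ∈ A, ℓ)}) := by
        apply Set.image_mono
        rintro g ⟨hg, hgt⟩
        refine ⟨hg, ?_, ?_⟩
        · intro x hx
          have h1 : AlgEquiv.restrictNormalHom N g = AlgEquiv.restrictNormalHom N σ := by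
            rw [hσ1]
            exact congrArg Prod.fst hgt
          rw [AlgEquiv.mul_apply, hres g σ h1 x hx, ← AlgEquiv.mul_apply, inv_mul_cancel]
          rfl
        · apply fix_prod hA
          intro ℓ hℓ y hy
          have : NeZero ℓ := ⟨(hA _ hℓ).ne_zero⟩
          have h1 : e g = e σ := by
            rw [hσ2]
            exact congrArg Prod.snd hgt
          have h2 : g (ζ ⟨ℓ, hℓ⟩) = σ (ζ ⟨ℓ, hℓ⟩) := by
            rw [he' g ⟨ℓ, hℓ⟩, he' σ ⟨ℓ, hℓ⟩, h1]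
          obtain ⟨i, -, rfl⟩ := (hζ ⟨ℓ, hℓ⟩).eq_pow_of_pow_eq_one hy
          rw [map_pow, AlgEquiv.mul_apply, h2, ← AlgEquiv.mul_apply, inv_mul_cancel]
          rfl
      have hle := Set.ncard_le_ncard hsubset (Set.toFinite _)
      have hprod : ∏ ℓ : A, w N c h (s t.1) ℓ.1 (t.2 ℓ) = (((∏ ℓ ∈ A', ℓ : ℕ)) : ℝ)⁻¹ := by
        rw [hA', Finset.prod_map, Nat.cast_prod, ← Finset.prod_inv_distrib, Finset.prod_filter]
        refine Finset.prod_congr rfl fun ℓ _ => ?_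
        unfold w
        rfl
      have hpos : (0 : ℝ) < ((∏ ℓ ∈ A', ℓ : ℕ) : ℝ) := by
        have : 0 < ∏ ℓ ∈ A', ℓ := Finset.prod_pos fun ℓ hℓ => (hA ℓ (hsub hℓ)).pos
        exact_mod_cast this
      rw [hprod, ← div_eq_mul_inv, le_div_iff₀ hpos, mul_comm]
      have h3 : (∏ ℓ ∈ A', ℓ) * ((QuotientGroup.mk : GK K → GK K ⧸ US N A c) ''
          {g | g ∈ CO A c h ∧ lab g = t}).ncard ≤ ((QuotientGroup.mk : GK K → GK K ⧸ US N A c) ''
        (HZ N (∏ ℓ ∈ A, ℓ) : Set (GK K))).ncard := (Nat.mul_le_mul_left _ hle).trans hF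
      rw [hM]
      exact_mod_cast h3
    · have hempty : {g | g ∈ CO A c h ∧ lab g = t} = (∅ : Set (GK K)) := by
        apply Set.eq_empty_of_forall_notMem
        rintro g ⟨-, hg⟩
        exact hne ⟨g, hg⟩
      rw [hempty, Set.image_empty, Set.ncard_empty, Nat.cast_zero]
      exact mul_nonneg (Nat.cast_nonneg _) (Finset.prod_nonneg fun _ _ => w_nonneg)
  have hsum : (((QuotientGroup.mk : GK K → GK K ⧸ US N A c) '' CO A c h).ncard : ℝ) ≤
      ∑ t ∈ T, M * ∏ ℓ : A, w N c h (s t.1) ℓ.1 (t.2 ℓ) := by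
    refine (Nat.cast_le.2 hcard).trans ?_
    push_cast
    exact Finset.sum_le_sum hone
  refine hsum.trans ?_
  rw [← Finset.mul_sum]
  refine mul_le_mul_of_nonneg_left ?_ (Nat.cast_nonneg _)
  rw [hT, Finset.sum_product]
  have hν : ∀ ν : (N ≃ₐ[K] N), ∑ a ∈ Fintype.piFinset (fun ℓ : A => Finset.Ico 1 ℓ.1),
      ∏ ℓ : A, w N c h (s ν) ℓ.1 (a ℓ) ≤ ∏ ℓ ∈ A, (((ℓ : ℝ) - 1) ^ 2 / ℓ) := by
    intro ν
    rw [← Finset.prod_univ_sum (fun ℓ : A => Finset.Ico 1 ℓ.1) (fun ℓ a => w N c h (s ν) ℓ.1 a),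
      ← Finset.prod_coe_sort A (fun ℓ => (((ℓ : ℝ) - 1) ^ 2 / ℓ))]
    refine Finset.prod_le_prod (fun ℓ _ => Finset.sum_nonneg fun _ _ => w_nonneg) fun ℓ _ => ?_
    exact sum_w hGE N hh0 (hA _ ℓ.2) (hdvd _ ℓ.2) (hc _ ℓ.2).1 (hc _ ℓ.2).2 (s ν)
  refine (Finset.sum_le_sum fun ν _ => hν ν).trans ?_
  rw [Finset.sum_const, nsmul_eq_mul]
  refine mul_le_mul_of_nonneg_right ?_ (Finset.prod_nonneg fun ℓ hℓ => by positivity)
  have h5 : Fintype.card (N ≃ₐ[K] N) ≤ h := by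
    rw [hh]
    exact AlgEquiv.card_le
  rw [Finset.card_univ]
  exact_mod_cast h5

/-- the lower bound -/
theorem lower (hOP : S_OP)
    (N : IntermediateField K (AlgebraicClosure K))
    [FiniteDimensional K N] [Normal K N] (A : Finset ℕ) (hA : ∀ ℓ ∈ A, ℓ.Prime)
    (c : ℕ → AlgebraicClosure K) :
    ((QuotientGroup.mk : GK K → GK K ⧸ US N A c) ''
        (HZ N (∏ ℓ ∈ A, ℓ) : Set (GK K))).ncard * ∏ ℓ ∈ A, (ℓ - 1) ≤
      Module.finrank ℚ K * Nat.card (GK K ⧸ US N A c) := by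
  classical
  obtain ⟨-, hopen, -⟩ := hOP K N A (fun ℓ hℓ => (hA ℓ hℓ).pos) c
  have hfin : Finite (GK K ⧸ US N A c) := Subgroup.quotient_finite_of_isOpen _ hopen
  set n := ∏ ℓ ∈ A, ℓ with hn'
  have hn : 0 < n := Finset.prod_pos fun ℓ hℓ => (hA ℓ hℓ).pos
  have hn0 : NeZero n := ⟨hn.ne'⟩
  have hn1 : NeZero (n : AlgebraicClosure K) := ⟨Nat.cast_ne_zero.2 hn.ne'⟩
  obtain ⟨Z, hZ⟩ := HasEnoughRootsOfUnity.exists_primitiveRoot (AlgebraicClosure K) n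
  have htot : n.totient = ∏ ℓ ∈ A, (ℓ - 1) := by
    rw [hn']
    have : ∀ B : Finset ℕ, B ⊆ A → (∏ ℓ ∈ B, ℓ).totient = ∏ ℓ ∈ B, (ℓ - 1) := by
      intro B
      induction B using Finset.induction_on with
      | empty => intro _; rw [Finset.prod_empty, Finset.prod_empty, Nat.totient_one]
      | insert q B hqB ih =>
        intro hsub
        have hq := hA q (hsub (Finset.mem_insert_self q B))
        rw [Finset.prod_insert hqB, Finset.prod_insert hqB, Nat.totient_mul, Nat.totient_prime hq,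
          ih fun x hx => hsub (Finset.mem_insert_of_mem hx)]
        rw [Nat.coprime_prod_right_iff]
        intro ℓ hℓ
        rw [Nat.coprime_primes hq (hA ℓ (hsub (Finset.mem_insert_of_mem hℓ)))]
        rintro rfl
        exact hqB hℓ
    exact this A (Finset.Subset.refl A)
  have hint : IsIntegral K Z := Algebra.IsIntegral.isIntegral Z
  have hcard : Fintype.card ((minpoly K Z).rootSet (AlgebraicClosure K)) = (minpoly K Z).natDegree :=
    card_rootSet_eq_natDegree (minpoly.irreducible hint).separable (IsAlgClosed.splits _)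
  have hσ : ∀ z : (minpoly K Z).rootSet (AlgebraicClosure K), ∃ σ : GK K, σ Z = z.1 := by
    rintro ⟨z, hz⟩
    have h1 := (mem_rootSet.1 hz).2
    obtain ⟨σ, hσ⟩ := minpoly.exists_algEquiv_of_root' (Algebra.IsAlgebraic.isAlgebraic Z) h1
    exact ⟨σ, hσ⟩
  choose σ hσ using hσ
  have hrep : ∀ m : ((QuotientGroup.mk : GK K → GK K ⧸ US N A c) ''
        (HZ N n : Set (GK K))), ∃ g : GK K, g ∈ HZ N n ∧
        ((g : GK K ⧸ US N A c)) = m.1 := by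
    rintro ⟨m, g, hg, rfl⟩
    exact ⟨g, hg, rfl⟩
  choose τ hτ hτm using hrep
  have hinj : Function.Injective (fun x : ((minpoly K Z).rootSet (AlgebraicClosure K)) ×
      ((QuotientGroup.mk : GK K → GK K ⧸ US N A c) '' (HZ N n : Set (GK K))) =>
        ((σ x.1 * τ x.2 : GK K) : GK K ⧸ US N A c)) := by
    rintro ⟨z, k⟩ ⟨z', k'⟩ h
    have h1 : (σ z * τ k)⁻¹ * (σ z' * τ k') ∈ US N A c := QuotientGroup.eq.1 h
    have h2 : ((σ z * τ k)⁻¹ * (σ z' * τ k')) Z = Z :=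
      fix_prod hA _ (fun ℓ hℓ => (h1.2 ℓ hℓ).1) Z hZ.pow_eq_one
    have hτZ : ∀ k, (τ k) Z = Z := fun k => (hτ k).2 Z hZ.pow_eq_one
    have h3 : z = z' := by
      apply Subtype.ext
      have h4 := congrArg (σ z * τ k) h2
      rw [← AlgEquiv.mul_apply, mul_inv_cancel_left, AlgEquiv.mul_apply, AlgEquiv.mul_apply, hτZ, hτZ,
        hσ, hσ] at h4
      exact h4.symm
    subst h3
    refine Prod.ext rfl ?_
    apply Subtype.ext
    rw [← hτm k, ← hτm k', QuotientGroup.eq]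
    have h5 : (σ z * τ k)⁻¹ * (σ z * τ k') = (τ k)⁻¹ * τ k' := by group
    rw [h5] at h1
    exact h1
  have hle := Nat.card_le_card_of_injective _ hinj
  rw [Nat.card_prod, Nat.card_eq_fintype_card, hcard, Nat.card_coe_set_eq] at hle
  have h10 := cyc_deg n hn Z hZ
  rw [htot] at h10
  calc ((QuotientGroup.mk : GK K → GK K ⧸ US N A c) '' (HZ N n : Set (GK K))).ncard *
        ∏ ℓ ∈ A, (ℓ - 1)
      ≤ ((QuotientGroup.mk : GK K → GK K ⧸ US N A c) '' (HZ N n : Set (GK K))).ncard *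
        (Module.finrank ℚ K * (minpoly K Z).natDegree) := Nat.mul_le_mul_left _ h10
    _ = Module.finrank ℚ K * ((minpoly K Z).natDegree *
        ((QuotientGroup.mk : GK K → GK K ⧸ US N A c) '' (HZ N n : Set (GK K))).ncard) := by ring
    _ ≤ _ := Nat.mul_le_mul_left _ hle

end

end C1

/-- Package C1 -/
theorem t_C1 (hGE : S_GE) (hFIB : S_FIB) (hOP : S_OP) : S_C1 := by
  intro K _ _ N _ _ A hA hd hdvd c hc
  obtain ⟨-, hopen, -⟩ := hOP K N A (fun ℓ hℓ => (hA ℓ hℓ).pos) c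
  have hfin : Finite (GK K ⧸ US N A c) := Subgroup.quotient_finite_of_isOpen _ hopen
  have hup := C1.upper hGE hFIB hOP N A hA hd (Module.finrank K N) rfl hdvd c hc
  have hlow := C1.lower hOP N A hA c
  have hQ : (0 : ℝ) < (Nat.card (GK K ⧸ US N A c) : ℝ) := by
    have : 0 < Nat.card (GK K ⧸ US N A c) := Nat.card_pos
    exact_mod_cast this
  rw [div_le_iff₀ hQ]
  refine hup.trans ?_
  have hlow' : (((QuotientGroup.mk : GK K → GK K ⧸ US N A c) ''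
        (HZ N (∏ ℓ ∈ A, ℓ) : Set (GK K))).ncard : ℝ) * ∏ ℓ ∈ A, ((ℓ : ℝ) - 1) ≤
      Module.finrank ℚ K * Nat.card (GK K ⧸ US N A c) := by
    have h1 : ((∏ ℓ ∈ A, (ℓ - 1) : ℕ) : ℝ) = ∏ ℓ ∈ A, ((ℓ : ℝ) - 1) := by
      rw [Nat.cast_prod]
      refine Finset.prod_congr rfl fun ℓ hℓ => ?_
      rw [Nat.cast_sub (hA ℓ hℓ).one_lt.le, Nat.cast_one]
    rw [← h1]
    exact_mod_cast hlow
  have hsplit : ∏ ℓ ∈ A, (((ℓ : ℝ) - 1) ^ 2 / ℓ) =
      (∏ ℓ ∈ A, ((ℓ : ℝ) - 1)) * ∏ ℓ ∈ A, (((ℓ : ℝ) - 1) / ℓ) := by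
    rw [← Finset.prod_mul_distrib]
    refine Finset.prod_congr rfl fun ℓ _ => ?_
    rw [sq, mul_div_assoc]
  have hnn : (0 : ℝ) ≤ ∏ ℓ ∈ A, (((ℓ : ℝ) - 1) / ℓ) := by
    refine Finset.prod_nonneg fun ℓ hℓ => ?_
    have : (1 : ℝ) ≤ ℓ := by exact_mod_cast (hA ℓ hℓ).one_lt.le
    exact div_nonneg (by linarith) (by linarith)
  rw [hsplit]
  calc _ = (((QuotientGroup.mk : GK K → GK K ⧸ US N A c) ''
        (HZ N (∏ ℓ ∈ A, ℓ) : Set (GK K))).ncard : ℝ) * (∏ ℓ ∈ A, ((ℓ : ℝ) - 1)) *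
        (Module.finrank K N * ∏ ℓ ∈ A, (((ℓ : ℝ) - 1) / ℓ)) := by ring
    _ ≤ (Module.finrank ℚ K * Nat.card (GK K ⧸ US N A c)) *
        (Module.finrank K N * ∏ ℓ ∈ A, (((ℓ : ℝ) - 1) / ℓ)) :=
      mul_le_mul_of_nonneg_right hlow' (mul_nonneg (Nat.cast_nonneg _) hnn)
    _ = _ := by ring

end Pool.Agent.U36.SD
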